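import Pool.Agent.MP_db5b97_nt.H85.Spec2

/-! A congruence subgroup without cohomology. -/

namespace Pool.Agent.MP_db5b97_nt.H47

open NumberField IsDedekindDomain Pool.Agent.MP_db5b97_nt.H85

variable {F G : Type} [Field F] [Group G] [MulSemiringAction G F] {l m : ℕ}

variable (F l) in
/-- multiples of `l ^ n` -/
def II (n : ℕ) : AddSubgroup F where
  carrier := {z | ∃ r ∈ Rl F l, z = (l : F) ^ n * r}
  zero_mem' := ⟨0, zero_mem _, by simp⟩
  add_mem' := by
    rintro _ _ ⟨r, hr, rfl⟩ ⟨s, hs, rfl⟩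
    exact ⟨r + s, add_mem hr hs, by ring⟩
  neg_mem' := by
    rintro _ ⟨r, hr, rfl⟩
    exact ⟨-r, neg_mem hr, by ring⟩

theorem II_mul {a b : ℕ} {x y : F} (hx : x ∈ II F l a) (hy : y ∈ II F l b) :
    x * y ∈ II F l (a + b) := by
  obtain ⟨r, hr, rfl⟩ := hx
  obtain ⟨s, hs, rfl⟩ := hy
  exact ⟨r * s, mul_mem hr hs, by ring⟩

theorem II_zero {x : F} (hx : x ∈ Rl F l) : x ∈ II F l 0 := ⟨x, hx, by simp⟩

theorem II_anti {a b : ℕ} (h : a ≤ b) : II F l b ≤ II F l a := by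
  rintro _ ⟨r, hr, rfl⟩
  obtain ⟨c, rfl⟩ := Nat.exists_eq_add_of_le h
  exact ⟨l ^ c * r, mul_mem (pow_mem (natCast_mem _ l) _) hr, by ring⟩

theorem Rl_map (φ : F →+* F) {x : F} (hx : x ∈ Rl F l) : φ x ∈ Rl F l := by
  obtain ⟨s, hs, h⟩ := hx
  exact ⟨s, hs, by simpa using h.map φ.toIntAlgHom⟩

theorem II_map (φ : F →+* F) {n : ℕ} {x : F} (hx : x ∈ II F l n) : φ x ∈ II F l n := by
  obtain ⟨r, hr, rfl⟩ := hx
  exact ⟨φ r, Rl_map φ hr, by simp⟩

theorem exists_mul [NumberField F] (hl : l ≠ 0) (t : F) :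
    ∃ e, ∀ n, ∀ z ∈ II F l (n + e), z * t ∈ II F l n := by
  by_cases ht : t = 0
  · exact ⟨0, fun n z _ => by simp [ht]⟩
  obtain ⟨e, he⟩ := exists_pow_div_mem hl (inv_ne_zero ht)
  refine ⟨e, ?_⟩
  rintro n _ ⟨r, hr, rfl⟩
  exact ⟨_, mul_mem he hr, by rw [div_inv_eq_mul]; ring⟩

variable (G l m) in
/-- a filtration by cohomologically trivial lattices -/
structure Dat [Fintype G] (L : ℕ → AddSubgroup F) (ψ : F →+ F) : Prop where
  anti : ∀ n, L (n + 1) ≤ L n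
  stab : ∀ n (g : G), ∀ z ∈ L n, g • z ∈ L n
  psi : ∀ n, ∀ z ∈ L n, ψ z ∈ L n
  idn : ∀ z, ∑ g : G, g • ψ (g⁻¹ • z) = z
  le : ∀ n, L (n + m) ≤ II F l n
  ge : ∀ n, II F l (n + m) ≤ L n

theorem exists_dat (k : Type) [Field k] [NumberField k] [NumberField F] [Algebra k F] [Fintype G]
    [IsGaloisGroup G k F] (hl : l ≠ 0) : ∃ m L ψ, Dat (F := F) G l m L ψ := by
  classical
  have := IsGaloisGroup.isGalois G k F
  let e := IsGaloisGroup.mulEquivAlgEquiv G k F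
  let b := (IsGalois.normalBasis k F).reindex e.symm.toEquiv
  obtain ⟨θ, hb⟩ : ∃ θ, ∀ g : G, b g = g • θ := ⟨IsGalois.normalBasis k F 1, fun g => by
    simp only [b, Module.Basis.reindex_apply]
    rw [IsGalois.normalBasis_apply]
    rfl⟩
  let c : F →+ F := (algebraMap k F).toAddMonoidHom.comp (b.coord 1).toAddMonoidHom
  have hc : ∀ z, c z = algebraMap k F (b.repr z 1) := fun _ => rfl
  have fix : ∀ (g : G) (a : k), g • algebraMap k F a = algebraMap k F a := fun g a =>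
    smul_algebraMap g a
  have key : ∀ (g : G) z, b.repr (g⁻¹ • z) 1 = b.repr z g := fun g z => by
    have : (b.coord 1).comp (DistribSMul.toLinearMap k F g⁻¹) = b.coord g :=
      b.ext fun h => by
        have e1 : g⁻¹ • b h = b (g⁻¹ * h) := by rw [hb, hb, mul_smul]
        simp only [LinearMap.comp_apply, DistribSMul.toLinearMap_apply, e1,
          Module.Basis.coord_apply, Module.Basis.repr_self, Finsupp.single_apply, inv_mul_eq_one,
          eq_comm]
    exact LinearMap.congr_fun this z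
  obtain ⟨η, hη⟩ : ∃ η : F, ∀ z, c z = ∑ τ : Gal(F/k), τ (z * η) :=
    ⟨((Algebra.traceForm k F).toDual (traceForm_nondegenerate k F)).symm (b.coord 1), fun z => by
      rw [← trace_eq_sum_automorphisms, mul_comm, ← Algebra.traceForm_apply,
        LinearMap.BilinForm.apply_toDual_symm_apply]
      rfl⟩
  obtain ⟨e1, h1⟩ := exists_mul hl θ
  obtain ⟨e2, h2⟩ := exists_mul hl η
  let L : ℕ → AddSubgroup F := fun n =>
    ⨅ g : G, (II F l n).comap (c.comp (DistribSMul.toAddMonoidHom F g))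
  have hL : ∀ n z, z ∈ L n ↔ ∀ g : G, c (g • z) ∈ II F l n := fun n z => by
    simp [L, AddSubgroup.mem_iInf]
  have idn : ∀ z, ∑ g : G, g • (c (g⁻¹ • z) * θ) = z := fun z => by
    conv_rhs => rw [← b.sum_repr z]
    refine Finset.sum_congr rfl fun g _ => ?_
    rw [smul_mul', hc, fix, key, hb, Algebra.smul_def]
  refine ⟨e1 + e2, L, (AddMonoidHom.mulRight θ).comp c, fun n z hz => ?_, fun n g z hz => ?_,
    fun n z hz => ?_, idn, fun n z hz => ?_, fun n z hz => ?_⟩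
  · exact (hL _ _).2 fun g => II_anti n.le_succ ((hL _ _).1 hz g)
  · exact (hL _ _).2 fun h => by rw [← mul_smul]; exact (hL _ _).1 hz _
  · refine (hL _ _).2 fun g => ?_
    have e3 : c (g • (c z * θ)) = if g = 1 then c z else 0 := by
      rw [smul_mul', hc z, fix, ← hb, ← Algebra.smul_def, hc, map_smul, b.repr_self]
      by_cases hg : g = 1 <;> simp [hg]
    change c (g • (c z * θ)) ∈ _
    rw [e3]
    split_ifs
    · simpa using (hL _ _).1 hz 1
    · exact zero_mem _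
  · rw [← idn z]
    exact sum_mem fun g _ => II_map (MulSemiringAction.toRingHom G F g)
      (h1 _ _ (II_anti (by omega) ((hL _ _).1 hz _)))
  · refine (hL _ _).2 fun g => ?_
    rw [hη]
    exact sum_mem fun τ _ => II_map (τ : F →+* F)
      (h2 _ _ (II_anti (by omega) (II_map (MulSemiringAction.toRingHom G F g) hz)))

theorem sum_pow {A : Type} [AddCommMonoid A] [Fintype G] {p : ℕ} (hp : p.Prime)
    (hG : Nat.card G = p) {σ : G} (hσ : σ ≠ 1) (f : G → A) :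
    ∑ i ∈ Finset.range p, f (σ ^ i) = ∑ g, f g := by
  classical
  have := Fact.mk hp
  have ho : orderOf σ = p := orderOf_eq_prime (hG ▸ pow_card_eq_one') hσ
  have hi : Set.InjOn (σ ^ ·) (Finset.range p) := by
    rw [Finset.coe_range, ← ho]
    exact pow_injOn_Iio_orderOf
  rw [← Finset.sum_image hi, Finset.eq_univ_of_card ((Finset.range p).image (σ ^ ·))]
  rw [Finset.card_image_of_injOn hi, Finset.card_range, ← hG, Nat.card_eq_fintype_card]

section main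

variable [NumberField F] [Fintype G] {L : ℕ → AddSubgroup F} {ψ : F →+ F} (d : Dat G l m L ψ)
  (hl : l ≠ 0)
include d

omit [NumberField F] in
theorem Dat.anti' {a b : ℕ} (h : a ≤ b) : L b ≤ L a := antitone_nat_of_succ_le d.anti h

omit [NumberField F] in
theorem Dat.mul {n : ℕ} (hn : 3 * m + 1 ≤ n) {a a' s : F} (ha : a ∈ L n) (ha' : a' ∈ L n)
    (hs : s ∈ Rl F l) : a * a' * s ∈ L (n + 1) := by
  obtain ⟨j, rfl⟩ : ∃ j, n = j + m := ⟨n - m, by omega⟩
  exact d.ge _ (II_anti (by omega) (II_mul (II_mul (d.le _ ha) (d.le _ ha')) (II_zero hs)))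

include hl

theorem Dat.val {n : ℕ} (hn : 3 * m + 1 ≤ n) {x : F} (hx : x - 1 ∈ L n) (w : Sp F)
    (hw : (l : 𝓞 F) ∈ w.asIdeal) : w.valuation F x = 1 := by
  obtain ⟨r, hr, e⟩ := d.le 1 (d.anti' (by omega) hx)
  rw [show x = 1 + l * r by rw [← pow_one (l : F), ← e]; ring]
  exact val_one_add hw hl hr

theorem Dat.neg {n : ℕ} (hn : 3 * m + 1 ≤ n) {x : Un F} (hx : x.val - 1 ∈ L n) :
    (-x).val - 1 + (x.val - 1) ∈ L (n + 1) := by
  have h := d.mul hn hx hx ((mem_Ru_iff hl).1 fun w hw => d.val hl hn hx w hw).2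
  have h0 := x.val_ne
  convert h using 1
  rw [Un.val_neg]
  field_simp
  ring

omit hl [NumberField F] in
theorem Dat.add {n : ℕ} (hn : 3 * m + 1 ≤ n) {x y : Un F} (hx : x.val - 1 ∈ L n)
    (hy : y.val - 1 ∈ L n) : (x + y).val - 1 - (x.val - 1 + (y.val - 1)) ∈ L (n + 1) := by
  convert d.mul hn hx hy (one_mem _) using 1
  rw [Un.val_add]
  ring

/-- the congruence subgroups -/
def Dat.U (j : ℕ) : AddSubgroup (Un F) where
  carrier := {x | x.val - 1 ∈ L (3 * m + 1 + j)}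
  zero_mem' := by simp
  add_mem' := fun hx hy => by
    simpa using add_mem (d.anti _ (d.add (Nat.le_add_right _ _) hx hy)) (add_mem hx hy)
  neg_mem' := fun hx => by
    simpa using sub_mem (d.anti _ (d.neg hl (Nat.le_add_right _ _) hx)) hx

theorem Dat.mem_U {j : ℕ} {x : Un F} : x ∈ d.U hl j ↔ x.val - 1 ∈ L (3 * m + 1 + j) := Iff.rfl

theorem Dat.U_anti {a b : ℕ} (h : a ≤ b) : d.U hl b ≤ d.U hl a := fun _ hx =>
  d.anti' (Nat.add_le_add_left h _) hx

omit hl d [NumberField F] [Fintype G] in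
theorem val_sm (g : G) (x : Un F) : (g • x).val - 1 = g • (x.val - 1) := by
  rw [Un.val_smul, smul_sub, smul_one]

theorem Dat.U_stab {j : ℕ} (g : G) {x : Un F} (hx : x ∈ d.U hl j) : g • x ∈ d.U hl j := by
  rw [d.mem_U, val_sm]
  exact d.stab _ g _ hx

/-- the leading term -/
def Dat.lam (j : ℕ) : d.U hl j →+ F ⧸ L (3 * m + 1 + j + 1) :=
  AddMonoidHom.mk' (fun x => ((x.1.val - 1 : F) : F ⧸ L (3 * m + 1 + j + 1))) fun x y => by
    rw [← QuotientAddGroup.mk_add, QuotientAddGroup.eq_iff_sub_mem]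
    exact d.add (Nat.le_add_right _ _) x.2 y.2

theorem Dat.lam_apply {j : ℕ} (x : d.U hl j) :
    d.lam hl j x = QuotientAddGroup.mk' _ (x.1.val - 1) := rfl

theorem Dat.lam_zero {j : ℕ} {x : d.U hl j} : d.lam hl j x = 0 ↔ x.1 ∈ d.U hl (j + 1) :=
  QuotientAddGroup.eq_zero_iff _

theorem Dat.lam_sum {j : ℕ} {x : Un F} (hx : x ∈ d.U hl j) :
    d.lam hl j ⟨∑ g : G, g • x, sum_mem fun g _ => d.U_stab hl g hx⟩ =
      QuotientAddGroup.mk' _ (∑ g : G, g • (x.val - 1)) := by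
  have : (⟨∑ g : G, g • x, sum_mem fun g _ => d.U_stab hl g hx⟩ : d.U hl j) =
      ∑ g : G, ⟨g • x, d.U_stab hl g hx⟩ := Subtype.ext (by simp)
  rw [this, map_sum, map_sum]
  exact Finset.sum_congr rfl fun g _ => by rw [d.lam_apply, val_sm]

theorem Dat.lift (h2 : 2 ≤ l) {j : ℕ} {a : F} (ha : a ∈ L (3 * m + 1 + j)) :
    ∃ y ∈ d.U hl j, y.val - 1 = a := by
  obtain ⟨Q, hQ, hle⟩ := Ideal.exists_le_maximal (Ideal.span {(l : 𝓞 F)}) (by
    rw [Ne, Ideal.span_singleton_eq_top]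
    intro h
    have h1 : IsUnit (l : ℤ) :=
      isUnit_of_map_unit (algebraMap ℤ (𝓞 F)) _ (by simpa using h)
    rcases Int.isUnit_iff.1 h1 with h | h <;> omega)
  have hm := hle (Ideal.mem_span_singleton_self _)
  have h := d.val hl (Nat.le_add_right _ j) (x := 1 + a) (by simpa using ha)
    ⟨Q, hQ.isPrime, fun h0 => hl (by simpa [h0] using hm)⟩ hm
  exact ⟨Un.mk (1 + a) fun h0 => by simp [h0] at h, by simpa [d.mem_U] using ha, by simp⟩

theorem Dat.step0 (h2 : 2 ≤ l) {j : ℕ} {x : Un F} (hx : x ∈ d.U hl j) (hf : ∀ g : G, g • x = x) :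
    ∃ y ∈ d.U hl j, x - ∑ g : G, g • y ∈ d.U hl (j + 1) := by
  obtain ⟨y, hy, e⟩ := d.lift hl h2 (d.psi _ _ hx)
  refine ⟨y, hy, (d.lam_zero hl (x := ⟨x, hx⟩ - ⟨_, sum_mem fun g _ => d.U_stab hl g hy⟩)).1 ?_⟩
  rw [map_sub, d.lam_sum hl hy, d.lam_apply, e, sub_eq_zero]
  congr 1
  refine (d.idn _).symm.trans (Finset.sum_congr rfl fun g _ => ?_)
  rw [← val_sm, hf]

theorem Dat.step1 (h2 : 2 ≤ l) {σ : G} (hσ : ∀ g, ∃ i : ℕ, g = σ ^ i) {j : ℕ} {x : Un F}
    (hx : x ∈ d.U hl j) (hf : ∑ g : G, g • x = 0) :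
    ∃ y ∈ d.U hl j, x - (σ • y - y) ∈ d.U hl (j + 1) := by
  have h1 : ∑ g : G, g • (x.val - 1) ∈ L (3 * m + 1 + j + 1) := by
    refine (QuotientAddGroup.eq_zero_iff _).1 ((d.lam_sum hl hx).symm.trans ?_)
    rw [d.lam_zero]
    simp [hf]
  have h3 : ∀ (g : G), ∀ w ∈ L (3 * m + 1 + j), g • w - w ∈ (L (3 * m + 1 + j)).map (Df σ) := by
    intro g w hw
    obtain ⟨i, rfl⟩ := hσ g
    induction i with
    | zero => simp
    | succ i ih =>
      have := add_mem (AddSubgroup.mem_map_of_mem (Df σ) (d.stab _ (σ ^ i) w hw)) ih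
      rwa [Df_apply, ← mul_smul, ← pow_succ', sub_add_sub_cancel] at this
  obtain ⟨a, ha, e⟩ := sum_mem (t := Finset.univ) fun (g : G) _ =>
    h3 g _ (d.psi _ _ (d.stab _ g⁻¹ _ hx))
  rw [Finset.sum_sub_distrib, d.idn, ← map_sum, Df_apply,
    Fintype.sum_equiv (Equiv.inv G) (fun g => g⁻¹ • (x.val - 1)) (fun g => g • (x.val - 1))
      fun _ => rfl] at e
  obtain ⟨y, hy, e'⟩ := d.lift hl h2 ha
  refine ⟨y, hy, (d.lam_zero hl (x := ⟨x, hx⟩ - (⟨_, d.U_stab hl σ hy⟩ - ⟨y, hy⟩))).1 ?_⟩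
  rw [map_sub, map_sub, d.lam_apply, d.lam_apply, d.lam_apply, ← map_sub, ← map_sub]
  refine (QuotientAddGroup.eq_zero_iff _).2 ?_
  simp only [val_sm, e', e, sub_sub_cancel]
  exact d.psi _ _ h1

theorem Dat.last {p : ℕ} (h2 : 2 ≤ l) {σ : G} (hp : σ ^ p = 1)
    (hs : ∀ f : G → F, ∑ i ∈ Finset.range p, f (σ ^ i) = ∑ g, f g) : ∃ j, ∀ x ∈ d.U hl j,
      Nm σ p x = 0 → ∃ y ∈ d.U hl 0, x = σ • y - y := by
  have ht : ∑ i ∈ Finset.range p, σ ^ i • ψ 1 = 1 := by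
    rw [hs fun g => g • ψ 1]
    simpa using d.idn 1
  obtain ⟨e, he⟩ := exists_mul hl (ψ 1)
  refine ⟨2 * m + e, fun x hx h0 => ?_⟩
  have hX : ∀ i, Nm σ i x ∈ d.U hl (2 * m + e) := fun i => by
    rw [Nm_apply]
    exact sum_mem fun i _ => d.U_stab hl _ hx
  have ha : ∑ i ∈ Finset.range p, ((Nm σ i x).val - 1) * σ ^ i • ψ 1 ∈ L (3 * m + 1 + 0) := by
    refine sum_mem fun i _ => ?_
    have h1 := d.stab _ (σ ^ i)⁻¹ _ (hX i)
    rw [show 3 * m + 1 + (2 * m + e) = 3 * m + 1 + m + e + m by ring] at h1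
    have := d.stab _ (σ ^ i) _ (d.ge _ (he _ _ (d.le _ h1)))
    rwa [smul_mul', smul_inv_smul] at this
  obtain ⟨y, hy, e1⟩ := d.lift hl h2 ha
  have e2 : y.val = ∑ i ∈ Finset.range p, (Nm σ i x).val * σ ^ i • ψ 1 := by
    simp only [sub_mul, one_mul, Finset.sum_sub_distrib, ht] at e1
    exact sub_left_injective e1
  have e3 : ∀ i, x.val * σ • ((Nm σ i x).val * σ ^ i • ψ 1)
      = (Nm σ (i + 1) x).val * σ ^ (i + 1) • ψ 1 := fun i => by
    have : Nm σ (i + 1) x = x + σ • Nm σ i x := by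
      simp only [Nm_apply, Finset.sum_range_succ', Finset.smul_sum, ← mul_smul, ← pow_succ',
        pow_zero, one_smul, add_comm]
    rw [this, smul_mul', ← mul_smul, ← pow_succ', Un.val_add, Un.val_smul, mul_assoc]
  have e4 : x + σ • y = y := by
    refine Un.ext ?_
    have := (Finset.sum_range_succ' (fun i => (Nm σ i x).val * σ ^ i • ψ 1) p).symm.trans
      (Finset.sum_range_succ _ p)
    rw [h0, hp, pow_zero, show Nm σ 0 x = 0 by simp [Nm_apply], add_left_inj] at this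
    rw [Un.val_add, Un.val_smul, e2, Finset.smul_sum, Finset.mul_sum,
      Finset.sum_congr rfl fun i _ => e3 i, this]
  refine ⟨-y, neg_mem hy, ?_⟩
  rw [smul_neg, sub_neg_eq_add, eq_neg_add_iff_add_eq, add_comm, e4]

end main

theorem rowU : RowU := by
  intro p hp k F G _ _ _ _ _ _ _ _ σ l hG hσ h2
  have hl : l ≠ 0 := by omega
  have : Finite G := Nat.finite_of_card_ne_zero (hG ▸ hp.ne_zero)
  have := Fintype.ofFinite G
  obtain ⟨m, L, ψ, d⟩ := exists_dat (F := F) (G := G) k hl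
  have hN : ∀ x : Un F, Nm σ p x = ∑ g : G, g • x := fun x =>
    (Nm_apply σ p x).trans (sum_pow hp hG hσ fun g => g • x)
  have hs : ∀ (h : G) (x : Un F), ∑ g : G, g • h • x = ∑ g : G, g • x := fun h x =>
    Fintype.sum_equiv (Equiv.mulRight h) _ _ fun g => (mul_smul g h x).symm
  have hs' : ∀ (h : G) (x : Un F), h • ∑ g : G, g • x = ∑ g : G, g • x := fun h x => by
    rw [Finset.smul_sum]
    exact Fintype.sum_equiv (Equiv.mulLeft h) _ _ fun g => (mul_smul h g x).symm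
  have gen : ∀ g, ∃ i : ℕ, g = σ ^ i := fun g => by
    have := Fact.mk hp
    obtain ⟨i, hi⟩ := (mem_powers_iff_mem_zpowers (x := σ) (y := g)).2
      (mem_zpowers_of_prime_card hG hσ)
    exact ⟨i, hi.symm⟩
  refine ⟨d.U hl 0, fun x hx => d.U_stab hl σ hx,
    fun x hx w hw => d.val hl (Nat.le_add_right _ 0) hx w hw, ⟨3 * m + 1 + m, fun x hx => ?_⟩,
    fun x hx h0 => ?_, fun M x hx h0 => ?_⟩
  · obtain ⟨y, hy, e⟩ := (mem_Ray_iff hl (by omega)).1 hx
    exact d.ge _ ⟨y, hy, by rw [e]; ring⟩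
  · obtain ⟨j, hj⟩ := d.last hl h2 (hG ▸ pow_card_eq_one' : σ ^ p = 1) (sum_pow hp hG hσ)
    have key : ∀ y, ∑ g : G, g • (x - (σ • y - y)) = 0 := fun y => by
      simp only [smul_sub, Finset.sum_sub_distrib, hs, sub_self, ← hN, h0]
    have it : ∀ j, ∃ y ∈ d.U hl 0, x - (σ • y - y) ∈ d.U hl j := by
      intro j
      induction j with
      | zero => exact ⟨0, zero_mem _, by simpa using hx⟩
      | succ j ih =>
        obtain ⟨y, hy, h⟩ := ih
        obtain ⟨z, hz, h'⟩ := d.step1 hl h2 gen h (key y)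
        refine ⟨y + z, add_mem hy (d.U_anti hl j.zero_le hz), ?_⟩
        convert h' using 1
        rw [smul_add]
        abel
    obtain ⟨y, hy, h⟩ := it j
    obtain ⟨z, hz, h'⟩ := hj _ h (by rw [hN, key y])
    refine ⟨y + z, add_mem hy hz, ?_⟩
    rw [smul_add, sub_eq_iff_eq_add.1 h']
    abel
  · have hf : ∀ g : G, g • x = x := fun g => by
      obtain ⟨i, rfl⟩ := gen g
      exact MulAction.mem_stabilizer_iff.1 (pow_mem (MulAction.mem_stabilizer_iff.2 h0) i)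
    have it : ∀ j, ∃ y ∈ d.U hl 0, x - ∑ g : G, g • y ∈ d.U hl j := by
      intro j
      induction j with
      | zero => exact ⟨0, zero_mem _, by simpa using hx⟩
      | succ j ih =>
        obtain ⟨y, hy, h⟩ := ih
        obtain ⟨z, hz, h'⟩ := d.step0 hl h2 h fun g => by rw [smul_sub, hf, hs']
        refine ⟨y + z, add_mem hy (d.U_anti hl j.zero_le hz), ?_⟩
        simpa only [smul_add, Finset.sum_add_distrib, sub_sub] using h'
    obtain ⟨y, hy, h⟩ := it M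
    refine ⟨y, hy, Ray_anti M.le_succ ((mem_Ray_iff hl (by omega)).2 ?_)⟩
    obtain ⟨r, hr, e⟩ := d.le (M + 1) (d.anti' (by omega) h)
    exact ⟨r, hr, by rw [hN, ← e]; ring⟩

end Pool.Agent.MP_db5b97_nt.H47
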